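import Pool.Agent.H6.FIB.TargetsG

/-!
# MP_7500ea_al, board fib_modules: orders of `PGL(2, q)` and index of `PSL(2, q)` (row CRD)
-/

open scoped Classical ComplexConjugate

namespace Pool.Agent.H32.FIB

open FI Matrix

theorem crd_scalar_inj (q : ℕ) [Fact q.Prime] :
    Function.Injective (GeneralLinearGroup.scalar (Fin 2) : (ZMod q)ˣ →* GL (Fin 2) (ZMod q)) := by
  intro a b h
  have h1 := congrArg (fun g : GL (Fin 2) (ZMod q) => (g : Matrix (Fin 2) (Fin 2) (ZMod q)) 0 0) h
  ext
  simpa [GeneralLinearGroup.scalar] using h1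

theorem crd_center (q : ℕ) [Fact q.Prime] :
    Nat.card (Subgroup.center (GL (Fin 2) (ZMod q))) = q - 1 := by
  rw [GeneralLinearGroup.center_eq_range_scalar]
  have h1 : Nat.card (GeneralLinearGroup.scalar (Fin 2) : (ZMod q)ˣ →*
      GL (Fin 2) (ZMod q)).range = Nat.card (ZMod q)ˣ :=
    Nat.card_congr (MonoidHom.ofInjective (crd_scalar_inj q)).toEquiv.symm
  rw [h1, Nat.card_eq_fintype_card, ZMod.card_units]

theorem crd_card (q : ℕ) [Fact q.Prime] (hq : 7 ≤ q) :
    Nat.card (PG q) = q * (q * q - 1) := by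
  have h1 := Subgroup.card_eq_card_quotient_mul_card_subgroup
    (Subgroup.center (GL (Fin 2) (ZMod q)))
  rw [crd_center, card_GL_field, ZMod.card, Fin.prod_univ_two] at h1
  simp only [Fin.val_zero, pow_zero, Fin.val_one, pow_one] at h1
  have h2 : q ^ 2 - q = q * (q - 1) := by
    rw [Nat.mul_sub, mul_one, sq]
  have h3 : q ^ 2 - 1 = q * q - 1 := by rw [sq]
  rw [h2, h3] at h1
  have h4 : 0 < q - 1 := by omega
  have h5 : Nat.card (PG q) * (q - 1) = q * (q * q - 1) * (q - 1) := by
    have h6 : Nat.card (PG q) * (q - 1) = (q * q - 1) * (q * (q - 1)) := h1.symm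
    rw [h6]
    ring
  exact Nat.eq_of_mul_eq_mul_right h4 h5

theorem crd_range (q : ℕ) (g : GL (Fin 2) (ZMod q)) :
    g ∈ (SpecialLinearGroup.toGL : SpecialLinearGroup (Fin 2) (ZMod q) →*
      GL (Fin 2) (ZMod q)).range ↔ GeneralLinearGroup.det g = 1 := by
  constructor
  · rintro ⟨s, rfl⟩
    ext
    simp
  · intro h
    have h1 : (g : Matrix (Fin 2) (Fin 2) (ZMod q)).det = 1 := by
      have := congrArg (fun u : (ZMod q)ˣ => (u : ZMod q)) h
      simpa using this
    exact ⟨⟨g, h1⟩, Units.ext rfl⟩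

theorem crd_normal (q : ℕ) : (PS q).Normal := by
  have h1 : ((SpecialLinearGroup.toGL : SpecialLinearGroup (Fin 2) (ZMod q) →*
      GL (Fin 2) (ZMod q)).range).Normal := by
    refine ⟨fun n hn g => ?_⟩
    rw [crd_range] at hn ⊢
    rw [map_mul, map_mul, hn, mul_one, ← map_mul, mul_inv_cancel, map_one]
  exact h1.map _ (QuotientGroup.mk'_surjective _)

theorem crd_det_surj (q : ℕ) [Fact q.Prime] : Function.Surjective
    (GeneralLinearGroup.det : GL (Fin 2) (ZMod q) →* (ZMod q)ˣ) := by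
  intro u
  have h : (!![(u : ZMod q), 0; 0, 1] : Matrix (Fin 2) (Fin 2) (ZMod q)).det ≠ 0 := by
    rw [det_fin_two_of]
    simp
  refine ⟨GeneralLinearGroup.mkOfDetNeZero !![(u : ZMod q), 0; 0, 1] h, ?_⟩
  ext
  simp [GeneralLinearGroup.mkOfDetNeZero, det_fin_two_of]

theorem crd_sq_index (q : ℕ) [Fact q.Prime] (hq : 7 ≤ q) :
    (powMonoidHom 2 : (ZMod q)ˣ →* (ZMod q)ˣ).range.index = 2 := by
  have hker : Nat.card (powMonoidHom 2 : (ZMod q)ˣ →* (ZMod q)ˣ).ker = 2 := by
    have h1 : ((powMonoidHom 2 : (ZMod q)ˣ →* (ZMod q)ˣ).ker : Set (ZMod q)ˣ) = {1, -1} := by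
      ext u
      simp only [SetLike.mem_coe, MonoidHom.mem_ker, powMonoidHom_apply, Set.mem_insert_iff,
        Set.mem_singleton_iff]
      constructor
      · intro h
        have h2 : (u : ZMod q) * u = 1 := by
          have := congrArg (fun v : (ZMod q)ˣ => (v : ZMod q)) h
          simpa [sq] using this
        rcases mul_self_eq_one_iff.mp h2 with h3 | h3
        · left
          ext
          simpa using h3
        · right
          ext
          simpa using h3
      · rintro (rfl | rfl) <;> simp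
    have h2 : Nat.card (powMonoidHom 2 : (ZMod q)ˣ →* (ZMod q)ˣ).ker =
        ((powMonoidHom 2 : (ZMod q)ˣ →* (ZMod q)ˣ).ker : Set (ZMod q)ˣ).ncard := rfl
    rw [h2, h1, Set.ncard_pair]
    intro h
    have h3 : (1 : ZMod q) = -1 := by
      have := congrArg (fun v : (ZMod q)ˣ => (v : ZMod q)) h
      simpa using this
    have h4 : ((2 : ℕ) : ZMod q) = 0 := by
      have h5 : (1 : ZMod q) + 1 = 0 := by
        nth_rewrite 1 [h3]
        ring
      push_cast
      rw [← h5]
      ring
    rw [ZMod.natCast_eq_zero_iff] at h4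
    have := Nat.le_of_dvd (by norm_num) h4
    omega
  set f := (powMonoidHom 2 : (ZMod q)ˣ →* (ZMod q)ˣ) with hf
  have h1 : Nat.card (ZMod q)ˣ = Nat.card ((ZMod q)ˣ ⧸ f.ker) * Nat.card f.ker :=
    Subgroup.card_eq_card_quotient_mul_card_subgroup _
  have h2 : Nat.card ((ZMod q)ˣ ⧸ f.ker) = Nat.card f.range :=
    Nat.card_congr (QuotientGroup.quotientKerEquivRange f).toEquiv
  have h3 : f.range.index * Nat.card f.range = Nat.card (ZMod q)ˣ := Subgroup.index_mul_card _
  have h4 : 0 < Nat.card f.range := Nat.card_pos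
  rw [h1, h2, hker, mul_comm (Nat.card f.range) 2] at h3
  exact Nat.eq_of_mul_eq_mul_right h4 h3

theorem crd_index (q : ℕ) [Fact q.Prime] (hq : 7 ≤ q) : (PS q).index = 2 := by
  have h1 := Subgroup.index_comap_of_surjective (PS q)
    (QuotientGroup.mk'_surjective (Subgroup.center (GL (Fin 2) (ZMod q))))
  have h2 := Subgroup.index_comap_of_surjective
    ((powMonoidHom 2 : (ZMod q)ˣ →* (ZMod q)ˣ).range) (crd_det_surj q)
  refine h1.symm.trans (Eq.trans ?_ (h2.trans (crd_sq_index q hq)))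
  refine congrArg Subgroup.index ?_
  ext g
  rw [Subgroup.mem_comap, Subgroup.mem_comap]
  unfold PS
  constructor
  · rintro ⟨s, hs, hsg⟩
    rw [SetLike.mem_coe, crd_range] at hs
    rw [QuotientGroup.mk'_apply, QuotientGroup.mk'_apply, QuotientGroup.eq] at hsg
    rw [GeneralLinearGroup.center_eq_range_scalar] at hsg
    obtain ⟨c, hc⟩ := hsg
    refine ⟨c, ?_⟩
    have h3 : g = s * GeneralLinearGroup.scalar (Fin 2) c := by
      rw [hc, mul_inv_cancel_left]
    rw [h3, map_mul, hs, one_mul, powMonoidHom_apply]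
    ext
    simp [GeneralLinearGroup.scalar, sq]
  · rintro ⟨c, hc⟩
    rw [powMonoidHom_apply] at hc
    refine ⟨g * (GeneralLinearGroup.scalar (Fin 2) c)⁻¹, ?_, ?_⟩
    · rw [SetLike.mem_coe, crd_range, map_mul, map_inv, ← hc]
      have h4 : GeneralLinearGroup.det (GeneralLinearGroup.scalar (Fin 2) c) = c ^ 2 := by
        ext
        simp [GeneralLinearGroup.scalar, sq]
      rw [h4, mul_inv_cancel]
    · rw [QuotientGroup.mk'_apply, QuotientGroup.mk'_apply, QuotientGroup.eq,
        GeneralLinearGroup.center_eq_range_scalar]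
      refine ⟨c, ?_⟩
      group

theorem pf_CRD : T_CRD := by
  intro q hq h7
  have : Fact q.Prime := ⟨hq⟩
  exact ⟨inferInstance, crd_card q h7, crd_index q h7, crd_normal q⟩

end Pool.Agent.H32.FIB
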